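import Pool.Agent.KS6_52.KB.Example
import Pool.Agent.KS6_52.KB.Defs

/-!
# A Koszul algebra whose `h`-vector is attained by quadratic monomial algebras, all of which have
a smaller Betti number

The algebra is `R = K[a,b,c,d,e]/(a^2, ac, bd, b^2 + ad, bc + ad, ea, eb, ec, ed, e^2)`; its
`h`-polynomial is `1 + 3z - 4z^2 - z^3 + 2z^4`, which is also the one of the quadratic monomial
algebra `K[a,b,c,d,e]/(a^2, b^2, e^2, be, ac, ad, bc, bd, ec, ed)`. The element `e` of the socle
gives `β_{5,6}(R) ≥ 1`, and `β_{5,6}(A) = 0` for every quadratic monomial algebra `A` with this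
`h`-polynomial.
-/

set_option autoImplicit false

noncomputable section

namespace Pool.Agent.Results.MP_4913c2_al.BettiComparisonFails

open Pool.Agent.KS6_52.KB.D (IsStandard IsKoszul IsHPoly SameH IsQuadratic mon betti)

/-- The two forms of the definition of the Betti number agree. -/
lemma betti_eq {K : Type} [Field K] {n : ℕ} (I : Ideal (MvPolynomial (Fin n) K)) :
    betti I 5 6 = Pool.Agent.KS6_52.KB.betti I 5 6 := rfl

/-- Over every field there is a Koszul algebra `R = S/I` such that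

* some quadratic monomial algebra has the same `h`-polynomial as `R`;
* every quadratic monomial algebra `A = T/J` with `h_A = h_R` has `β_{5,6}^T(A) = 0`, while
  `β_{5,6}^S(R) ≥ 1`. -/
theorem result (K : Type) [Field K] :
    ∃ (n : ℕ) (I : Ideal (MvPolynomial (Fin n) K)), IsStandard I ∧ IsKoszul I ∧
      (∃ (m : ℕ) (E : Set (Fin m →₀ ℕ)), IsQuadratic E ∧ SameH I (mon K E)) ∧
      1 ≤ betti I 5 6 ∧
      ∀ (m : ℕ) (E : Set (Fin m →₀ ℕ)), IsQuadratic E → SameH I (mon K E) →
        betti (mon K E) 5 6 = 0 ∧ betti (mon K E) 5 6 < betti I 5 6 := by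
  have hI : IsHPoly (Pool.Agent.KS6_52.KB.J K) Pool.Agent.KS6_52.KB.hpoly :=
    ⟨by rw [Pool.Agent.KS6_52.KB.hpoly_eval]; norm_num, 2, Pool.Agent.KS6_52.KB.hilbert⟩
  have hpos : 1 ≤ betti (Pool.Agent.KS6_52.KB.J K) 5 6 := by
    rw [betti_eq]
    refine Pool.Agent.KS6_52.KB.betti_top_pos (n := 5) (4 : Fin 5) ?_ ?_
    · intro h
      have h1 := Pool.Agent.KS6_52.KB.mem_J.1 h
      rw [Pool.Agent.KS6_52.KB.phi_X4] at h1
      have h2 := congrArg Pool.Agent.KS6_52.KB.Q.w h1
      simp at h2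
    · intro l
      rw [Pool.Agent.KS6_52.KB.mem_J, map_mul, Pool.Agent.KS6_52.KB.phi_X4]
      fin_cases l
      · change Pool.Agent.KS6_52.KB.phi (MvPolynomial.X 0) * _ = 0
        rw [Pool.Agent.KS6_52.KB.phi_X0]
        ext1 <;> simp
      · change Pool.Agent.KS6_52.KB.phi (MvPolynomial.X 1) * _ = 0
        rw [Pool.Agent.KS6_52.KB.phi_X1]
        ext1 <;> simp
      · change Pool.Agent.KS6_52.KB.phi (MvPolynomial.X 2) * _ = 0
        rw [Pool.Agent.KS6_52.KB.phi_X2]
        ext1 <;> simp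
      · change Pool.Agent.KS6_52.KB.phi (MvPolynomial.X 3) * _ = 0
        rw [Pool.Agent.KS6_52.KB.phi_X3]
        ext1 <;> simp
      · change Pool.Agent.KS6_52.KB.phi (MvPolynomial.X 4) * _ = 0
        rw [Pool.Agent.KS6_52.KB.phi_X4]
        ext1 <;> simp
  refine ⟨5, Pool.Agent.KS6_52.KB.J K, ⟨Pool.Agent.KS6_52.KB.J_hom,
    Pool.Agent.KS6_52.KB.J_le⟩, Pool.Agent.KS6_52.KB.koszul, ⟨5,
      Pool.Agent.KS6_52.KB.E0, Pool.Agent.KS6_52.KB.E0_two,
      Pool.Agent.KS6_52.KB.hpoly, hI, ?_⟩, hpos, ?_⟩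
  · exact ⟨hI.1, 2, Pool.Agent.KS6_52.KB.hilbert_E0⟩
  · intro m E hE hh
    have h0 : betti (mon K E) 5 6 = 0 := by
      obtain ⟨h, ⟨h1, d1, hd1⟩, ⟨_, d2, hd2⟩⟩ := hh
      have hh' : h = Pool.Agent.KS6_52.KB.hpoly :=
        Pool.Agent.TH884.KF.h_unique h1 hI.1 hd1 Pool.Agent.KS6_52.KB.hilbert
      subst hh'
      have hs : (PowerSeries.mk (fun j : ℕ =>
          ((Module.finrank K (Pool.Agent.KS6_52.KB.part (Pool.Agent.KS6_52.KB.mon K E) j) : ℕ) :
            ℤ)) : PowerSeries ℤ) = Pool.Agent.TH884.KF.HS E := by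
        ext j
        rw [Pool.Agent.TH884.KF.HS, PowerSeries.coeff_mk, PowerSeries.coeff_mk,
          Pool.Agent.KS6_52.KB.part, Pool.Agent.KS6_52.KB.mon,
          Pool.Agent.TH884.KF.finrank_monomial]
      have hd2' : (1 - PowerSeries.X) ^ d2 * Pool.Agent.TH884.KF.HS E =
          (Pool.Agent.KS6_52.KB.hpoly : PowerSeries ℤ) := by
        rw [← hs]
        exact hd2
      have hc1 : Pool.Agent.KS6_52.KB.hpoly.coeff 1 = 3 := by
        have e : Pool.Agent.KS6_52.KB.hpoly = Polynomial.C 1 + Polynomial.C 3 * Polynomial.X +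
            Polynomial.C (-4) * Polynomial.X ^ 2 + Polynomial.C (-1) * Polynomial.X ^ 3 +
            Polynomial.C 2 * Polynomial.X ^ 4 := by
          rw [Pool.Agent.KS6_52.KB.hpoly]
          simp only [map_neg, map_one, map_ofNat]
          ring
        rw [e]
        simp only [Polynomial.coeff_add, Polynomial.coeff_C_mul, Polynomial.coeff_X_pow,
          Polynomial.coeff_X, Polynomial.coeff_C]
        norm_num
      have hmd : (m : ℤ) - d2 = 3 := by
        rw [Pool.Agent.TH884.KF.card_vars hE hd2', hc1]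
      have hm : m = 3 + d2 := by omega
      rw [betti_eq]
      refine Pool.Agent.KS6_52.KB.betti_monomial hE (by omega) ?_
      apply Polynomial.coe_injective
      have e : ((1 - Polynomial.X : Polynomial ℤ) : PowerSeries ℤ) = 1 - PowerSeries.X := by simp
      rw [← Pool.Agent.TH884.KF.mul_HS (fun e he i => Pool.Agent.TH884.KF.ex_le (hE e he) i),
        Polynomial.coe_mul, Polynomial.coe_pow, e, ← hd2', ← mul_assoc, ← pow_add, ← hm]
    refine ⟨h0, ?_⟩
    rw [h0]
    exact hpos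

end Pool.Agent.Results.MP_4913c2_al.BettiComparisonFails

end
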