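import Pool.Graph.R_pool_sql_team_seeded_ab47071d.TH884.KF.Final

set_option autoImplicit false

/-! # MP_4913c2_al: over every field some Koszul algebra has the h-vector of no quadratic monomial
algebra -/

namespace Pool.Agent.Results.MP_4913c2_al.EveryField

/-- The power series of the dimensions of the graded pieces of `K[x_1, …, x_n] / I`. -/
noncomputable def hilbertSeries (K : Type) [Field K] {n : ℕ} (I : Ideal (MvPolynomial (Fin n) K)) :
    PowerSeries ℤ :=
  PowerSeries.mk fun j : ℕ => ((Module.finrank K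
    (Submodule.map (Ideal.Quotient.mkₐ K I).toLinearMap
      (MvPolynomial.homogeneousSubmodule (Fin n) K j)) : ℕ) : ℤ)

/-- `h` is the h-polynomial of `K[x_1, …, x_n] / I`: `h(1) ≠ 0` and the Hilbert series is
`h(z) / (1 - z)^d` for some `d`. -/
def IsHPoly (K : Type) [Field K] {n : ℕ} (I : Ideal (MvPolynomial (Fin n) K))
    (h : Polynomial ℤ) : Prop :=
  h.eval 1 ≠ 0 ∧ ∃ d : ℕ, (1 - PowerSeries.X) ^ d * hilbertSeries K I = (h : PowerSeries ℤ)

/-- The residue field of `K[x_1, …, x_n] / I` has a linear free resolution, given by matrices of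
linear forms. -/
def IsKoszul (K : Type) [Field K] {n : ℕ} (I : Ideal (MvPolynomial (Fin n) K)) : Prop :=
  ∃ (b : ℕ → ℕ)
    (M : ∀ i : ℕ, Matrix (Fin (b i)) (Fin (b (i + 1))) (MvPolynomial (Fin n) K ⧸ I)),
    b 0 = 1 ∧
    (∀ (i : ℕ) (r : Fin (b i)) (c : Fin (b (i + 1))),
      ∃ p : MvPolynomial (Fin n) K, p.IsHomogeneous 1 ∧ Ideal.Quotient.mk I p = M i r c) ∧
    (∀ u : Fin (b 0) → MvPolynomial (Fin n) K ⧸ I,
      (∃ w, Matrix.mulVec (M 0) w = u) ↔
        ∀ r, u r ∈ Ideal.map (Ideal.Quotient.mk I)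
          (RingHom.ker (MvPolynomial.constantCoeff : MvPolynomial (Fin n) K →+* K))) ∧
    (∀ (i : ℕ) (v : Fin (b (i + 1)) → MvPolynomial (Fin n) K ⧸ I),
      Matrix.mulVec (M i) v = 0 ↔ ∃ w, Matrix.mulVec (M (i + 1)) w = v)

/-- Over every field `K` there is a standard graded Koszul algebra `K[x_1, …, x_4] / I` whose
h-polynomial is `1 + 2 z - 2 z² - 2 z³ + 2 z⁴`, and this is the h-polynomial of no quadratic
monomial algebra over any field. -/
theorem result (K : Type) [Field K] :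
    ∃ I : Ideal (MvPolynomial (Fin 4) K),
      (∀ p ∈ I, ∀ j : ℕ, MvPolynomial.homogeneousComponent j p ∈ I) ∧
      I ≤ (RingHom.ker (MvPolynomial.constantCoeff : MvPolynomial (Fin 4) K →+* K)) ^ 2 ∧
      IsKoszul K I ∧
      IsHPoly K I (1 + 2 * Polynomial.X - 2 * Polynomial.X ^ 2 - 2 * Polynomial.X ^ 3 +
        2 * Polynomial.X ^ 4) ∧
      ∀ (L : Type) [Field L] (m : ℕ) (E : Set (Fin m →₀ ℕ)), (∀ e ∈ E, ∑ i, e i = 2) →
        ∀ h : Polynomial ℤ, IsHPoly K I h →
          ¬ IsHPoly L (Ideal.span ((fun e => MvPolynomial.monomial e (1 : L)) '' E)) h := by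
  refine ⟨TH884.KF.J K, fun p hp j => TH884.KF.J_hom p hp j, TH884.KF.J_le, TH884.KF.koszul,
    ⟨?_, 2, TH884.KF.hilbert⟩, ?_⟩
  · have := TH884.KF.hpoly_eval
    simp only [TH884.KF.hpoly] at this
    rw [this]
    norm_num
  · rintro L _ m E hE h ⟨h1, dR, hR⟩ ⟨-, dA, hA⟩
    have hh : h = TH884.KF.hpoly := TH884.KF.h_unique h1
      (by rw [TH884.KF.hpoly_eval]; norm_num) hR TH884.KF.hilbert
    exact TH884.KF.no_monomial_algebra hE hh hA

end Pool.Agent.Results.MP_4913c2_al.EveryField
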